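import Pool.Agent.H9.SymbPow.Poly

namespace Pool.Agent.H9.SymbPow

open MvPolynomial IsLocalRing

theorem mem_symb_of_prime {R : Type*} [CommRing R] (I : Ideal R) [hI : I.IsPrime] (m : ℕ)
    (s a : R) (hs : s ∉ I) (h : s * a ∈ I ^ m) : a ∈ symb I m := by
  unfold symb
  rw [Ideal.mem_iInf]
  rintro ⟨P, hP⟩
  have hPI : P = I := by
    rw [Ideal.minimalPrimes_eq_subsingleton_self] at hP
    exact hP
  subst hPI
  rw [Ideal.mem_comap]
  have hu : IsUnit (algebraMap R (Localization.AtPrime P) s) :=
    IsLocalization.map_units (M := P.primeCompl) _ ⟨s, hs⟩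
  rw [← Ideal.unit_mul_mem_iff_mem _ hu, ← map_mul]
  exact Ideal.mem_map_of_mem _ h

variable (k : Type) [Field k]

/-- The localisation of `k[X₀, …, X₃]` at the origin. -/
abbrev R : Type := Localization.AtPrime (idealOfVars (Fin 4) k)

instance : IsRegularLocalRing (R k) := inferInstance

/-- Set the first `i` variables equal to zero. -/
noncomputable def kill (i : ℕ) : S k →ₐ[k] S k := aeval (fun j => if j.val < i then 0 else X j)

theorem kill_X (i : ℕ) (j : Fin 4) : kill k i (X j) = if j.val < i then 0 else X j := by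
  unfold kill
  rw [aeval_X]

/-- The ideal generated by the first `i` variables. -/
noncomputable def Q (i : ℕ) : Ideal (S k) := RingHom.ker (kill k i)

instance Q_prime (i : ℕ) : (Q k i).IsPrime := RingHom.ker_isPrime _

theorem kill_kill (i : ℕ) (g : S k) : kill k (i + 1) (kill k i g) = kill k (i + 1) g := by
  have : (kill k (i + 1)).comp (kill k i) = kill k (i + 1) := by
    apply algHom_ext
    intro j
    rw [AlgHom.comp_apply, kill_X, kill_X]
    by_cases h : j.val < i
    · rw [if_pos h, if_pos (by omega), map_zero]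
    · rw [if_neg h, kill_X]
  have h2 := congrArg (fun F : S k →ₐ[k] S k => F g) this
  exact h2

theorem Q_lt (i : ℕ) (hi : i < 4) : Q k i < Q k (i + 1) := by
  constructor
  · intro g hg
    have h0 : kill k i g = 0 := hg
    change kill k (i + 1) g = 0
    rw [← kill_kill, h0, map_zero]
  · intro h
    have h1 : (X ⟨i, hi⟩ : S k) ∈ Q k (i + 1) := by
      change kill k (i + 1) _ = 0
      rw [kill_X, if_pos (Nat.lt_succ_self i)]
    have h2 : kill k i (X ⟨i, hi⟩) = 0 := h h1
    rw [kill_X, if_neg (Nat.lt_irrefl i)] at h2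
    exact X_ne_zero _ h2

theorem height_Q (i : ℕ) (hi : i ≤ 4) : (i : ℕ∞) ≤ (Q k i).height := by
  induction i with
  | zero => simp
  | succ i ih =>
    have h := Ideal.height_add_one_le_of_lt_of_isPrime (Q_lt k i (by omega))
    calc ((i + 1 : ℕ) : ℕ∞) = (i : ℕ∞) + 1 := by push_cast; rfl
      _ ≤ (Q k i).height + 1 := by gcongr; exact ih (by omega)
      _ ≤ _ := h

theorem Q_le : Q k 4 ≤ idealOfVars (Fin 4) k := by
  intro g hg
  rw [M_eq, RingHom.mem_ker]
  have h : ((constantCoeff : S k →+* k).comp (kill k 4 : S k →+* S k)) = constantCoeff := by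
    apply ringHom_ext
    · intro r
      simp [kill]
    · intro j
      rw [RingHom.comp_apply]
      have : (kill k 4 : S k →+* S k) (X j) = kill k 4 (X j) := rfl
      rw [this, kill_X, if_pos j.isLt, map_zero, constantCoeff_X]
  rw [← h, RingHom.comp_apply]
  have h0 : (kill k 4 : S k →+* S k) g = 0 := hg
  rw [h0, map_zero]

theorem height_M : (idealOfVars (Fin 4) k).height = 4 := by
  apply le_antisymm
  · have h1 : ((idealOfVars (Fin 4) k).height : WithBot ℕ∞) ≤ ringKrullDim (S k) :=
      Ideal.height_le_ringKrullDim_of_ne_top (M_prime k).ne_top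
    rw [MvPolynomial.ringKrullDim_of_isNoetherianRing, ringKrullDim_eq_zero_of_field, zero_add,
      Nat.card_eq_fintype_card, Fintype.card_fin] at h1
    have h2 : (((4 : ℕ) : ℕ∞) : WithBot ℕ∞) = ((4 : ℕ) : WithBot ℕ∞) := rfl
    rw [← h2, WithBot.coe_le_coe] at h1
    exact h1
  · exact le_trans (height_Q k 4 le_rfl) (Ideal.height_mono (Q_le k))

theorem dim_R : ringKrullDim (R k) = (4 : ℕ) := by
  rw [IsLocalization.AtPrime.ringKrullDim_eq_height (idealOfVars (Fin 4) k) (R k), height_M]
  rfl

theorem P_le : P k ≤ idealOfVars (Fin 4) k :=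
  le_trans (P_le_sq k) (Ideal.pow_le_self two_ne_zero)

theorem disj : Disjoint ((idealOfVars (Fin 4) k).primeCompl : Set (S k)) (P k : Set (S k)) := by
  rw [Set.disjoint_left]
  intro x hx hxP
  exact hx (P_le k hxP)

/-- The prime ideal of the germ at the origin of the monomial curve. -/
noncomputable def I : Ideal (R k) := (P k).map (algebraMap (S k) (R k))

instance I_prime : (I k).IsPrime :=
  IsLocalization.isPrime_of_isPrime_disjoint (idealOfVars (Fin 4) k).primeCompl (R k) (P k)
    inferInstance (disj k)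

theorem mem_I (g : S k) : algebraMap (S k) (R k) g ∈ I k ↔ g ∈ P k := by
  have h := IsLocalization.under_map_of_isPrime_disjoint (idealOfVars (Fin 4) k).primeCompl (R k)
    (I := P k) inferInstance (disj k)
  constructor
  · intro hg
    rw [← h]
    exact hg
  · intro hg
    exact Ideal.mem_map_of_mem _ hg

/-- The element `f ^ 2` of the fourth symbolic power. -/
noncomputable def ff : R k := algebraMap (S k) (R k) (f k ^ 2)

theorem ff_mem [CharP k 2] : ff k ∈ symb (I k) 4 := by
  apply mem_symb_of_prime (I k) 4 (algebraMap (S k) (R k) (X 0 ^ 4))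
  · rw [mem_I, mem_P, map_pow, phi_X0, ← pow_mul]
    exact pow_ne_zero _ Polynomial.X_ne_zero
  · unfold ff I
    rw [← map_mul, ← Ideal.map_pow]
    exact Ideal.mem_map_of_mem _ (fourth_mem k)

/-- The arc along the last axis. -/
noncomputable def chi0 : S k →+* PowerSeries k :=
  eval₂Hom PowerSeries.C (fun j => if j = 3 then PowerSeries.X else 0)

theorem chi0_X (j : Fin 4) : chi0 k (X j) = if j = 3 then PowerSeries.X else 0 := by
  unfold chi0
  rw [coe_eval₂Hom, eval₂_X]

theorem chi0_const (g : S k) : PowerSeries.constantCoeff (chi0 k g) = constantCoeff g := by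
  have h : (PowerSeries.constantCoeff (R := k)).comp (chi0 k) = constantCoeff := by
    apply ringHom_ext
    · intro r
      simp [chi0]
    · intro j
      rw [RingHom.comp_apply, chi0_X, constantCoeff_X]
      split_ifs <;> simp
  rw [← h]
  rfl

theorem chi0_unit (y : (idealOfVars (Fin 4) k).primeCompl) : IsUnit (chi0 k y) := by
  rw [PowerSeries.isUnit_iff_constantCoeff, chi0_const, isUnit_iff_ne_zero]
  intro h
  apply y.2
  have h2 : (y : S k) ∈ RingHom.ker (constantCoeff : S k →+* k) := h
  rw [← M_eq] at h2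
  exact h2

/-- The arc on the local ring. -/
noncomputable def chi : R k →+* PowerSeries k :=
  IsLocalization.lift (M := (idealOfVars (Fin 4) k).primeCompl) (g := chi0 k) (chi0_unit k)

theorem chi_alg (g : S k) : chi k (algebraMap (S k) (R k) g) = chi0 k g :=
  IsLocalization.lift_eq _ _

theorem max_eq : maximalIdeal (R k) = (idealOfVars (Fin 4) k).map (algebraMap (S k) (R k)) :=
  (IsLocalization.AtPrime.map_eq_maximalIdeal (idealOfVars (Fin 4) k) (R k)).symm

theorem map_max : (maximalIdeal (R k)).map (chi k) ≤ Ideal.span {PowerSeries.X} := by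
  rw [max_eq, Ideal.map_map, Ideal.map_le_iff_le_comap]
  intro g hg
  rw [Ideal.mem_comap, RingHom.comp_apply, chi_alg, Ideal.mem_span_singleton,
    PowerSeries.X_dvd_iff, chi0_const]
  rw [M_eq] at hg
  exact hg

theorem I_le_sq : I k ≤ maximalIdeal (R k) ^ 2 := by
  unfold I
  rw [max_eq, ← Ideal.map_pow]
  exact Ideal.map_mono (P_le_sq k)

theorem chi_ff : chi k (ff k) = PowerSeries.X ^ 4 := by
  unfold ff f
  rw [chi_alg, map_pow, map_add, map_add, map_add, map_mul, map_mul, map_pow, map_pow, map_pow,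
    map_pow, chi0_X, chi0_X, chi0_X, chi0_X]
  simp
  ring

theorem ff_not_mem : ff k ∉ maximalIdeal (R k) ^ 3 * I k := by
  intro h
  have h1 : maximalIdeal (R k) ^ 3 * I k ≤ maximalIdeal (R k) ^ 5 := by
    calc maximalIdeal (R k) ^ 3 * I k ≤ maximalIdeal (R k) ^ 3 * maximalIdeal (R k) ^ 2 :=
          Ideal.mul_mono_right (I_le_sq k)
      _ = maximalIdeal (R k) ^ 5 := by rw [← pow_add]
  have h2 : chi k (ff k) ∈ ((maximalIdeal (R k)) ^ 5).map (chi k) :=
    Ideal.mem_map_of_mem _ (h1 h)
  rw [Ideal.map_pow, chi_ff] at h2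
  have h3 := Ideal.pow_right_mono (map_max k) 5 h2
  rw [Ideal.span_singleton_pow, Ideal.mem_span_singleton, PowerSeries.X_pow_dvd_iff] at h3
  have h4 := h3 4 (by norm_num)
  rw [PowerSeries.coeff_X_pow, if_pos rfl] at h4
  exact one_ne_zero h4

theorem not_symb_le [CharP k 2] : ¬ symb (I k) 4 ≤ maximalIdeal (R k) ^ 3 * I k :=
  fun h => ff_not_mem k (h (ff_mem k))

theorem not_HH : ¬ HarbourneHuneke := by
  intro h
  have : Fact (Nat.Prime 2) := ⟨Nat.prime_two⟩
  have h1 := h (R (ZMod 2)) 4 (dim_R (ZMod 2)) (I (ZMod 2)) (I_prime (ZMod 2)).ne_top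
    (I_prime (ZMod 2)).isRadical 1 4 le_rfl (by norm_num)
  rw [pow_one] at h1
  exact not_symb_le (ZMod 2) h1

end Pool.Agent.H9.SymbPow
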