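import Pool.Agent.H9.SymbPow.BigDefs
import Pool.Agent.H9.SymbPow.Local

/-!
# The height of the ideal of the monomial curve, and powers of the special element
-/

namespace Pool.Agent.H9.SymbPow

open MvPolynomial IsLocalRing

variable (k : Type) [Field k]

/-- Partial parametrisations: the first `i + 1` variables are sent to powers of the first one. -/
noncomputable def part (i : ℕ) : S k →ₐ[k] S k :=
  aeval (fun j => if j.val ≤ i then X 0 ^ a j else X j)

theorem part_X (i : ℕ) (j : Fin 4) : part k i (X j) = if j.val ≤ i then X 0 ^ a j else X j := by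
  unfold part
  rw [aeval_X]

/-- The kernels of the partial parametrisations. -/
noncomputable def T (i : ℕ) : Ideal (S k) := RingHom.ker (part k i)

instance T_prime (i : ℕ) : (T k i).IsPrime := RingHom.ker_isPrime _

/-- The specialisation of the next variable. -/
noncomputable def spec (i : ℕ) : S k →ₐ[k] S k :=
  aeval (fun j => if j.val = i + 1 then X 0 ^ a j else X j)

theorem spec_X (i : ℕ) (j : Fin 4) : spec k i (X j) = if j.val = i + 1 then X 0 ^ a j else X j := by
  unfold spec
  rw [aeval_X]

theorem spec_part (i : ℕ) (g : S k) : spec k i (part k i g) = part k (i + 1) g := by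
  have : (spec k i).comp (part k i) = part k (i + 1) := by
    apply algHom_ext
    intro j
    rw [AlgHom.comp_apply, part_X, part_X]
    by_cases h : j.val ≤ i
    · rw [if_pos h, if_pos (by omega), map_pow, spec_X, if_neg (by simp)]
    · rw [if_neg h, spec_X]
      by_cases h2 : j.val = i + 1
      · rw [if_pos h2, if_pos (by omega)]
      · rw [if_neg h2, if_neg (by omega)]
  have h2 := congrArg (fun F : S k →ₐ[k] S k => F g) this
  exact h2

/-- Binomials separating the kernels. -/
theorem T_lt (i : ℕ) (hi : i < 3) : T k i < T k (i + 1) := by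
  constructor
  · intro g hg
    have h0 : part k i g = 0 := hg
    change part k (i + 1) g = 0
    rw [← spec_part, h0, map_zero]
  · intro h
    have h1 : (X ⟨i + 1, by omega⟩ ^ 4 - X 0 ^ a ⟨i + 1, by omega⟩ : S k) ∈ T k (i + 1) := by
      change part k (i + 1) _ = 0
      rw [map_sub, map_pow, map_pow, part_X, part_X, if_pos le_rfl, if_pos (by simp)]
      have : a 0 = 4 := rfl
      rw [this]
      ring
    have h2 : part k i (X ⟨i + 1, by omega⟩ ^ 4 - X 0 ^ a ⟨i + 1, by omega⟩) = 0 := h h1
    rw [map_sub, map_pow, map_pow, part_X, part_X, if_neg (by simp), if_pos (by simp)] at h2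
    -- evaluate at the point with the next coordinate one and the others zero
    have h3 := congrArg (eval (fun j : Fin 4 => if j.val = i + 1 then (1 : k) else 0)) h2
    rw [map_sub, map_pow, map_pow, map_pow, eval_X, eval_X, if_pos rfl, if_neg (by simp)] at h3
    have h4 : ∀ j, a j ≠ 0 := by decide
    rw [zero_pow (h4 _), zero_pow (h4 _), one_pow, sub_zero, map_zero] at h3
    exact one_ne_zero h3

theorem height_T (i : ℕ) (hi : i ≤ 3) : (i : ℕ∞) ≤ (T k i).height := by
  induction i with
  | zero => simp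
  | succ i ih =>
    have h := Ideal.height_add_one_le_of_lt_of_isPrime (T_lt k i (by omega))
    calc ((i + 1 : ℕ) : ℕ∞) = (i : ℕ∞) + 1 := by push_cast; rfl
      _ ≤ (T k i).height + 1 := by gcongr; exact ih (by omega)
      _ ≤ _ := h

theorem T_le : T k 3 ≤ P k := by
  intro g hg
  have h0 : part k 3 g = 0 := hg
  rw [mem_P]
  have h : (aeval (fun _ => Polynomial.X) : S k →ₐ[k] Polynomial k).comp (part k 3) = phi k := by
    apply algHom_ext
    intro j
    rw [AlgHom.comp_apply, part_X, if_pos (by omega), map_pow, aeval_X]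
    unfold phi
    rw [aeval_X]
  rw [← h, AlgHom.comp_apply, h0, map_zero]

theorem height_I : (I k).height = 3 := by
  apply le_antisymm
  · have hlt : I k < maximalIdeal (R k) := by
      refine lt_of_le_of_ne (IsLocalRing.le_maximalIdeal (I_prime k).ne_top) fun h => ?_
      have h1 : algebraMap (S k) (R k) (X 0) ∈ maximalIdeal (R k) := by
        rw [max_eq]
        apply Ideal.mem_map_of_mem
        rw [M_eq, RingHom.mem_ker, constantCoeff_X]
      rw [← h, mem_I, mem_P, phi_X0] at h1
      exact pow_ne_zero _ Polynomial.X_ne_zero h1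
    have h1 := Ideal.height_add_one_le_of_lt_of_isPrime hlt
    have h2 : (maximalIdeal (R k)).height = 4 := by
      have h3 := IsLocalRing.maximalIdeal_height_eq_ringKrullDim (R := R k)
      rw [dim_R] at h3
      exact WithBot.coe_injective h3
    rw [h2] at h1
    rcases eq_or_ne (I k).height ⊤ with h | h
    · rw [h] at h1
      exact absurd h1 (by decide)
    · obtain ⟨n, hn⟩ := ENat.ne_top_iff_exists.1 h
      rw [← hn] at h1 ⊢
      have h5 : ((n + 1 : ℕ) : ℕ∞) ≤ ((4 : ℕ) : ℕ∞) := by exact_mod_cast h1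
      have h6 : n + 1 ≤ 4 := ENat.coe_le_coe.1 h5
      have h7 : n ≤ 3 := by omega
      exact_mod_cast h7
  · have h1 : (I k).height = (P k).height :=
      IsLocalization.height_map_of_disjoint (idealOfVars (Fin 4) k).primeCompl _ (disj k)
    rw [h1]
    exact le_trans (height_T k 3 le_rfl) (Ideal.height_mono (T_le k))

theorem bight_I : bight (I k) = 3 := by
  unfold bight
  rw [Ideal.minimalPrimes_eq_subsingleton_self]
  simp [height_I]

/-- The powers of `f`. -/
noncomputable def fp (c : ℕ) : R k := algebraMap (S k) (R k) (f k ^ c)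

theorem pow_mem_P [CharP k 2] (c : ℕ) : X 0 ^ (2 * c) * (f k) ^ c ∈ P k ^ (2 * c) := by
  have h := Ideal.pow_mem_pow (sq_mem k) c
  rw [← pow_mul] at h
  have e : X 0 ^ (2 * c) * (f k) ^ c = (X 0 ^ 2 * f k) ^ c := by
    rw [mul_pow, ← pow_mul]
  rw [e]
  exact h

theorem fp_mem [CharP k 2] (c : ℕ) : fp k c ∈ symb (I k) (2 * c) := by
  apply mem_symb_of_prime (I k) (2 * c) (algebraMap (S k) (R k) (X 0 ^ (2 * c)))
  · rw [mem_I, mem_P, map_pow, phi_X0, ← pow_mul]
    exact pow_ne_zero _ Polynomial.X_ne_zero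
  · unfold fp I
    rw [← map_mul, ← Ideal.map_pow]
    exact Ideal.mem_map_of_mem _ (pow_mem_P k c)

theorem chi_fp (c : ℕ) : chi k (fp k c) = PowerSeries.X ^ (2 * c) := by
  unfold fp f
  rw [chi_alg, map_pow, map_add, map_add, map_add, map_mul, map_mul, map_pow, map_pow, map_pow,
    map_pow, chi0_X, chi0_X, chi0_X, chi0_X]
  simp [← pow_mul]

theorem fp_not_mem (c s r : ℕ) (h : 2 * c < s + 2 * r) :
    fp k c ∉ maximalIdeal (R k) ^ s * I k ^ r := by
  intro h0
  have h1 : maximalIdeal (R k) ^ s * I k ^ r ≤ maximalIdeal (R k) ^ (s + 2 * r) := by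
    rw [pow_add, pow_mul]
    exact Ideal.mul_mono_right (Ideal.pow_right_mono (I_le_sq k) r)
  have h2 : chi k (fp k c) ∈ ((maximalIdeal (R k)) ^ (s + 2 * r)).map (chi k) :=
    Ideal.mem_map_of_mem _ (h1 h0)
  rw [Ideal.map_pow, chi_fp] at h2
  have h3 := Ideal.pow_right_mono (map_max k) _ h2
  rw [Ideal.span_singleton_pow, Ideal.mem_span_singleton, PowerSeries.X_pow_dvd_iff] at h3
  have h4 := h3 (2 * c) h
  rw [PowerSeries.coeff_X_pow, if_pos rfl] at h4
  exact one_ne_zero h4

theorem not_symb_le_big [CharP k 2] : ¬ symb (I k) 6 ≤ maximalIdeal (R k) ^ 4 * I k ^ 2 :=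
  fun h => fp_not_mem k 3 4 2 (by norm_num) (h (fp_mem k 3))

theorem not_HHB : ¬ HarbourneHunekeBight := by
  intro h
  have : Fact (Nat.Prime 2) := ⟨Nat.prime_two⟩
  have hb : I (ZMod 2) ≠ ⊥ := by
    intro h0
    have h1 := height_I (ZMod 2)
    rw [h0, Ideal.height_bot] at h1
    exact absurd h1 (by norm_num)
  have h1 := h (R (ZMod 2)) (I (ZMod 2)) hb (I_prime (ZMod 2)).ne_top
    (I_prime (ZMod 2)).isRadical 3 (bight_I (ZMod 2)) 2 6 (by norm_num) (by norm_num)
  exact not_symb_le_big (ZMod 2) h1

end Pool.Agent.H9.SymbPow
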