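import Pool.Agent.H9.SymbPow.Defs

/-!
# The big height form of the Harbourne-Huneke statement
-/

namespace Pool.Agent.H9.SymbPow

open IsLocalRing

/-- The big height of `I`: the largest height of a minimal prime of `I`. -/
noncomputable def bight {R : Type*} [CommRing R] (I : Ideal R) : ℕ∞ :=
  ⨆ P ∈ I.minimalPrimes, P.height

/-- The statement of Q1: for every regular local ring `(R, 𝔪)`, every nonzero proper radical ideal
`I` of big height `e`, and all `r ≥ 1` and `m ≥ r e`, one has `I^{(m)} ⊆ 𝔪^{re-r} I^r`. -/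
def HarbourneHunekeBight : Prop :=
  ∀ (R : Type) [CommRing R] [IsRegularLocalRing R] (I : Ideal R), I ≠ ⊥ → I ≠ ⊤ → I.IsRadical →
    ∀ e : ℕ, bight I = e → ∀ r m : ℕ, 1 ≤ r → r * e ≤ m →
      symb I m ≤ maximalIdeal R ^ (r * e - r) * I ^ r

end Pool.Agent.H9.SymbPow
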