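import Mathlib

/-!
# Symbolic powers in regular local rings: definitions
-/

namespace Pool.Agent.H9.SymbPow

open IsLocalRing

/-- The `m`-th symbolic power `I^{(m)} = ⋂_{P ∈ Min(I)} (I^m R_P ∩ R)`. -/
noncomputable def symb {R : Type*} [CommRing R] (I : Ideal R) (m : ℕ) : Ideal R :=
  ⨅ P : I.minimalPrimes,
    haveI : P.1.IsPrime := P.2.1.1
    Ideal.comap (algebraMap R (Localization.AtPrime P.1))
      (Ideal.map (algebraMap R (Localization.AtPrime P.1)) (I ^ m))

/-- The statement of Q1: for every regular local ring `(R, 𝔪)` of dimension `n`, every proper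
radical ideal `I`, and all `r ≥ 1` and `m ≥ r n`, one has `I^{(m)} ⊆ 𝔪^{rn-r} I^r`. -/
def HarbourneHuneke : Prop :=
  ∀ (R : Type) [CommRing R] [IsRegularLocalRing R] (n : ℕ), ringKrullDim R = n →
    ∀ I : Ideal R, I ≠ ⊤ → I.IsRadical → ∀ r m : ℕ, 1 ≤ r → r * n ≤ m →
      symb I m ≤ maximalIdeal R ^ (r * n - r) * I ^ r

end Pool.Agent.H9.SymbPow
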