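import Pool.Agent.H9.SymbPow.Defs

namespace Pool.Agent.H9.SymbPow

open MvPolynomial

variable (k : Type) [Field k]

/-- The polynomial ring in four variables. -/
abbrev S : Type := MvPolynomial (Fin 4) k

/-- The exponents of the monomial curve. -/
def a : Fin 4 → ℕ := ![4, 6, 7, 9]

/-- The weight of an exponent. -/
def wt (s : Fin 4 →₀ ℕ) : ℕ := ∑ i, a i * s i

theorem wt_eq (s : Fin 4 →₀ ℕ) : wt s = 4 * s 0 + 6 * s 1 + 7 * s 2 + 9 * s 3 := by
  unfold wt
  rw [Fin.sum_univ_four]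
  rfl

/-- The parametrisation of the monomial curve `(t^4, t^6, t^7, t^9)`. -/
noncomputable def phi : S k →ₐ[k] Polynomial k := aeval (fun i => Polynomial.X ^ a i)

/-- The prime ideal of the curve. -/
noncomputable def P : Ideal (S k) := RingHom.ker (phi k)

instance P_prime : (P k).IsPrime := RingHom.ker_isPrime _

theorem phi_mon (s : Fin 4 →₀ ℕ) (c : k) :
    phi k (monomial s c) = Polynomial.monomial (wt s) c := by
  unfold phi
  rw [aeval_monomial, Finsupp.prod_fintype _ _ (fun i => pow_zero _)]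
  simp only [← pow_mul]
  rw [Finset.prod_pow_eq_pow_sum, Polynomial.algebraMap_apply, Algebra.algebraMap_self,
    RingHom.id_apply, Polynomial.C_mul_X_pow_eq_monomial]
  rfl

theorem phi_coeff (g : S k) (e : ℕ) :
    (phi k g).coeff e = ∑ s ∈ g.support, if wt s = e then coeff s g else 0 := by
  conv_lhs => rw [g.as_sum, map_sum, Polynomial.finsetSum_coeff]
  apply Finset.sum_congr rfl
  intro s _
  rw [phi_mon, Polynomial.coeff_monomial]

theorem coeff_of_unique (g : S k) (hg : g ∈ P k) (s : Fin 4 →₀ ℕ)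
    (hs : ∀ s' : Fin 4 →₀ ℕ, wt s' = wt s → s' = s) : coeff s g = 0 := by
  have h0 : (phi k g).coeff (wt s) = 0 := by
    have : phi k g = 0 := hg
    rw [this, Polynomial.coeff_zero]
  rw [phi_coeff] at h0
  by_cases hsg : s ∈ g.support
  · rw [Finset.sum_eq_single_of_mem s hsg, if_pos rfl] at h0
    · exact h0
    · intro s' _ hne
      rw [if_neg]
      exact fun h => hne (hs s' h)
  · exact notMem_support_iff.1 hsg

theorem ext4 (s s' : Fin 4 →₀ ℕ) (h0 : s 0 = s' 0) (h1 : s 1 = s' 1) (h2 : s 2 = s' 2)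
    (h3 : s 3 = s' 3) : s = s' := by
  ext i
  fin_cases i
  · exact h0
  · exact h1
  · exact h2
  · exact h3

theorem P_le_sq : P k ≤ (idealOfVars (Fin 4) k) ^ 2 := by
  intro g hg
  rw [mem_pow_idealOfVars_iff']
  intro s hs
  apply coeff_of_unique k g hg
  intro s' hw
  rw [Finsupp.degree_eq_sum, Fin.sum_univ_four] at hs
  rw [wt_eq, wt_eq] at hw
  obtain h | h | h | h | h :
      (s 0 = 0 ∧ s 1 = 0 ∧ s 2 = 0 ∧ s 3 = 0) ∨ (s 0 = 1 ∧ s 1 = 0 ∧ s 2 = 0 ∧ s 3 = 0) ∨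
      (s 0 = 0 ∧ s 1 = 1 ∧ s 2 = 0 ∧ s 3 = 0) ∨ (s 0 = 0 ∧ s 1 = 0 ∧ s 2 = 1 ∧ s 3 = 0) ∨
      (s 0 = 0 ∧ s 1 = 0 ∧ s 2 = 0 ∧ s 3 = 1) := by omega
  all_goals
    obtain ⟨h0, h1, h2, h3⟩ := h
    rw [h0, h1, h2, h3] at hw
    have b0 : s' 0 ≤ 2 := by omega
    have b1 : s' 1 ≤ 1 := by omega
    have b2 : s' 2 ≤ 1 := by omega
    have b3 : s' 3 ≤ 1 := by omega
    have key : s 0 = s' 0 ∧ s 1 = s' 1 ∧ s 2 = s' 2 ∧ s 3 = s' 3 := by
      rw [h0, h1, h2, h3]
      generalize s' 0 = x0 at *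
      generalize s' 1 = x1 at *
      generalize s' 2 = x2 at *
      generalize s' 3 = x3 at *
      interval_cases x0 <;> interval_cases x1 <;> interval_cases x2 <;> interval_cases x3 <;>
        simp_all
    exact (ext4 s s' key.1 key.2.1 key.2.2.1 key.2.2.2).symm

theorem M_eq : idealOfVars (Fin 4) k = RingHom.ker (constantCoeff : S k →+* k) := by
  ext g
  have h := mem_pow_idealOfVars_iff' (σ := Fin 4) (R := k) 1 g
  rw [pow_one] at h
  rw [h, RingHom.mem_ker, constantCoeff_eq]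
  constructor
  · intro h'
    exact h' 0 (by simp)
  · intro h' x hx
    have : x = 0 := by
      rw [Finsupp.degree_eq_sum, Fin.sum_univ_four] at hx
      apply ext4 <;> simp only [Finsupp.coe_zero, Pi.zero_apply] <;> omega
    rw [this]
    exact h'

instance M_prime : (idealOfVars (Fin 4) k).IsPrime := by
  rw [M_eq]
  exact RingHom.ker_isPrime _

/-- The hypersurface of multiplicity two along the curve. -/
noncomputable def f : S k := X 3 ^ 2 + X 0 * X 2 ^ 2 + X 0 ^ 3 * X 1 + X 1 ^ 3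

theorem two_zero [CharP k 2] : (2 : S k) = 0 := by
  have : CharP (S k) 2 := inferInstance
  have h := CharP.cast_eq_zero (S k) 2
  exact_mod_cast h

theorem two_zero' [CharP k 2] : (2 : Polynomial k) = 0 := by
  have : CharP (Polynomial k) 2 := inferInstance
  have h := CharP.cast_eq_zero (Polynomial k) 2
  exact_mod_cast h

theorem phi_X0 : phi k (X 0) = Polynomial.X ^ 4 := by
  unfold phi
  rw [aeval_X]
  rfl

theorem phi_X1 : phi k (X 1) = Polynomial.X ^ 6 := by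
  unfold phi
  rw [aeval_X]
  rfl

theorem phi_X2 : phi k (X 2) = Polynomial.X ^ 7 := by
  unfold phi
  rw [aeval_X]
  rfl

theorem phi_X3 : phi k (X 3) = Polynomial.X ^ 9 := by
  unfold phi
  rw [aeval_X]
  rfl

theorem mem_P (g : S k) : g ∈ P k ↔ phi k g = 0 := Iff.rfl

theorem sq_mem [CharP k 2] : X 0 ^ 2 * f k ∈ P k ^ 2 := by
  have hA : (X 0 * X 3 - X 1 * X 2 : S k) ∈ P k := by
    rw [mem_P, map_sub, map_mul, map_mul, phi_X0, phi_X1, phi_X2, phi_X3]
    ring
  have hB : (X 1 ^ 2 + X 0 ^ 3 : S k) ∈ P k := by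
    rw [mem_P, map_add, map_pow, map_pow, phi_X0, phi_X1]
    linear_combination Polynomial.X ^ 12 * two_zero' k
  have hD : (X 2 ^ 2 + X 0 ^ 2 * X 1 : S k) ∈ P k := by
    rw [mem_P, map_add, map_mul, map_pow, map_pow, phi_X0, phi_X1, phi_X2]
    linear_combination Polynomial.X ^ 14 * two_zero' k
  have e : X 0 ^ 2 * f k = (X 0 * X 3 - X 1 * X 2) * (X 0 * X 3 - X 1 * X 2)
      + (X 1 ^ 2 + X 0 ^ 3) * (X 2 ^ 2 + X 0 ^ 2 * X 1) := by
    unfold f
    linear_combination (X 0 * X 1 * X 2 * X 3 - X 1 ^ 2 * X 2 ^ 2) * two_zero k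
  rw [e, pow_two]
  exact Ideal.add_mem _ (Ideal.mul_mem_mul hA hA) (Ideal.mul_mem_mul hB hD)

theorem fourth_mem [CharP k 2] : X 0 ^ 4 * (f k) ^ 2 ∈ P k ^ 4 := by
  have h := Ideal.mul_mem_mul (sq_mem k) (sq_mem k)
  rw [← pow_add] at h
  have e : X 0 ^ 4 * (f k) ^ 2 = X 0 ^ 2 * f k * (X 0 ^ 2 * f k) := by ring
  rw [e]
  exact h

end Pool.Agent.H9.SymbPow
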